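import Pool.Agent.Helper35.PM.Defs2

/-!
# Expectations over random subsets
-/

set_option autoImplicit false

namespace Pool.Agent.Helper35.PM

open Finset
open scoped Classical

theorem Ex_empty {V : Type} (p : ℝ) (f : Finset V → ℝ) : Ex p ∅ f = f ∅ := by
  simp [Ex]

/-- The expectation depends only on the values on subsets. -/
theorem Ex_congr {V : Type} (p : ℝ) (B : Finset V) {f g : Finset V → ℝ}
    (h : ∀ X ⊆ B, f X = g X) : Ex p B f = Ex p B g := by
  unfold Ex
  apply Finset.sum_congr rfl
  intro X hX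
  rw [h X (Finset.mem_powerset.1 hX)]

/-- PM-13 (several small lemmas). -/
theorem Ex_add {V : Type} (p : ℝ) (B : Finset V) (f g : Finset V → ℝ) :
    Ex p B (fun X => f X + g X) = Ex p B f + Ex p B g := by
  unfold Ex
  rw [← Finset.sum_add_distrib]
  apply Finset.sum_congr rfl
  intro X _
  ring

theorem Ex_const_mul {V : Type} (p c : ℝ) (B : Finset V) (f : Finset V → ℝ) :
    Ex p B (fun X => c * f X) = c * Ex p B f := by
  unfold Ex
  rw [Finset.mul_sum]
  apply Finset.sum_congr rfl
  intro X _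
  ring

/-- One step of the expectation. -/
theorem Ex_insert {V : Type} (p : ℝ) {a : V} {B : Finset V} (ha : a ∉ B)
    (f : Finset V → ℝ) :
    Ex p (insert a B) f = (1 - p) * Ex p B f + p * Ex p B (fun X => f (insert a X)) := by
  unfold Ex
  rw [Finset.sum_powerset_insert ha, Finset.mul_sum, Finset.mul_sum]
  congr 1
  · apply Finset.sum_congr rfl
    intro X hX
    have haX : a ∉ X := fun h => ha (Finset.mem_powerset.1 hX h)
    have h1 : insert a B \ X = insert a (B \ X) := Finset.insert_sdiff_of_notMem _ haX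
    have h2 : a ∉ B \ X := fun h => ha (Finset.mem_sdiff.1 h).1
    rw [h1, Finset.card_insert_of_notMem h2, pow_succ]
    ring
  · apply Finset.sum_congr rfl
    intro X hX
    have haX : a ∉ X := fun h => ha (Finset.mem_powerset.1 hX h)
    have h1 : insert a B \ insert a X = B \ X := by
      ext x
      simp only [Finset.mem_sdiff, Finset.mem_insert, not_or]
      constructor
      · rintro ⟨h | h, h2, h3⟩
        · exact absurd h h2
        · exact ⟨h, h3⟩
      · rintro ⟨h, h3⟩
        exact ⟨Or.inr h, fun hxa => ha (hxa ▸ h), h3⟩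
    rw [h1, Finset.card_insert_of_notMem haX, pow_succ]
    ring

theorem Ex_const {V : Type} (p c : ℝ) (B : Finset V) : Ex p B (fun _ => c) = c := by
  induction B using Finset.induction_on with
  | empty => exact Ex_empty _ _
  | insert a B ha ih =>
    rw [Ex_insert p ha, ih]
    ring

theorem Ex_mono {V : Type} (p : ℝ) (h0 : 0 ≤ p) (h1 : p ≤ 1) (B : Finset V)
    (f g : Finset V → ℝ) (h : ∀ X ⊆ B, f X ≤ g X) : Ex p B f ≤ Ex p B g := by
  unfold Ex
  apply Finset.sum_le_sum
  intro X hX
  apply mul_le_mul_of_nonneg_left (h X (Finset.mem_powerset.1 hX))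
  have : 0 ≤ 1 - p := by linarith
  positivity

theorem Ex_sum {V ι : Type} (p : ℝ) (B : Finset V) (I : Finset ι) (f : ι → Finset V → ℝ) :
    Ex p B (fun X => ∑ i ∈ I, f i X) = ∑ i ∈ I, Ex p B (f i) := by
  unfold Ex
  rw [Finset.sum_comm]
  apply Finset.sum_congr rfl
  intro X _
  rw [Finset.mul_sum]

theorem exists_ge_Ex {V : Type} (p : ℝ) (h0 : 0 ≤ p) (h1 : p ≤ 1) (B : Finset V)
    (f : Finset V → ℝ) : ∃ X ⊆ B, Ex p B f ≤ f X := by
  obtain ⟨X, hX, hmax⟩ := Finset.exists_max_image B.powerset f ⟨∅, Finset.empty_mem_powerset B⟩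
  refine ⟨X, Finset.mem_powerset.1 hX, ?_⟩
  calc Ex p B f ≤ Ex p B (fun _ => f X) :=
        Ex_mono p h0 h1 B _ _ (fun Y hY => hmax Y (Finset.mem_powerset.2 hY))
    _ = f X := Ex_const p _ B

/-- The expectation splits along a subset. -/
theorem Ex_split {V : Type} (p : ℝ) (B T : Finset V) (hT : T ⊆ B) (f : Finset V → ℝ) :
    Ex p B f = Ex p T (fun X₁ => Ex p (B \ T) (fun X₂ => f (X₁ ∪ X₂))) := by
  induction T using Finset.induction_on generalizing B f with
  | empty =>
    rw [Ex_empty, Finset.sdiff_empty]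
    apply Ex_congr
    intro X _
    rw [Finset.empty_union]
  | insert a T ha ih =>
    have haB : a ∈ B := hT (Finset.mem_insert_self a T)
    have hT' : T ⊆ B.erase a := by
      intro x hx
      refine Finset.mem_erase.2 ⟨fun h => ha (h ▸ hx), hT (Finset.mem_insert_of_mem hx)⟩
    have hB : B \ insert a T = B.erase a \ T := by
      ext x
      simp only [Finset.mem_sdiff, Finset.mem_insert, Finset.mem_erase, not_or]
      tauto
    rw [Ex_insert p ha, hB]
    conv_lhs => rw [← Finset.insert_erase haB]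
    rw [Ex_insert p (Finset.notMem_erase a B), ih (B.erase a) hT' f,
      ih (B.erase a) hT' (fun X => f (insert a X))]
    congr 2
    apply Ex_congr
    intro X _
    apply Ex_congr
    intro Y _
    rw [Finset.insert_union]

/-- exactly `S` inside `T` -/
theorem Ex_inter_eq {V : Type} (p : ℝ) (B S T : Finset V) (hS : S ⊆ T) (hT : T ⊆ B) :
    Ex p B (fun X => if X ∩ T = S then 1 else 0) = p ^ S.card * (1 - p) ^ (T \ S).card := by
  rw [Ex_split p B T hT]
  have h1 : Ex p T (fun X₁ => Ex p (B \ T)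
      (fun X₂ => if (X₁ ∪ X₂) ∩ T = S then (1 : ℝ) else 0)) =
      Ex p T (fun X₁ => if X₁ = S then (1 : ℝ) else 0) := by
    apply Ex_congr
    intro X hX
    rw [← Ex_const p (if X = S then (1 : ℝ) else 0) (B \ T)]
    apply Ex_congr
    intro Y hY
    have h2 : (X ∪ Y) ∩ T = X := by
      ext x
      simp only [Finset.mem_inter, Finset.mem_union]
      constructor
      · rintro ⟨h | h, h3⟩
        · exact h
        · exact absurd h3 (Finset.mem_sdiff.1 (hY h)).2
      · intro h
        exact ⟨Or.inl h, hX h⟩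
    rw [h2]
  rw [h1]
  unfold Ex
  rw [Finset.sum_eq_single S]
  · beta_reduce
    rw [if_pos rfl, mul_one]
  · intro X _ hX
    beta_reduce
    rw [if_neg hX, mul_zero]
  · intro h
    exact absurd (Finset.mem_powerset.2 hS) h

theorem Ex_subset {V : Type} (p : ℝ) (B S : Finset V) (hS : S ⊆ B) :
    Ex p B (fun X => if S ⊆ X then 1 else 0) = p ^ S.card := by
  have h := Ex_inter_eq p B S S (Finset.Subset.refl S) hS
  rw [Finset.sdiff_self, Finset.card_empty, pow_zero, mul_one] at h
  rw [← h]
  apply Ex_congr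
  intro X _
  have : S ⊆ X ↔ X ∩ S = S := Finset.inter_eq_right.symm
  simp only [this]

theorem Ex_card {V : Type} (p : ℝ) (B : Finset V) :
    Ex p B (fun X => (X.card : ℝ)) = p * B.card := by
  induction B using Finset.induction_on with
  | empty => rw [Ex_empty]; simp
  | insert a B ha ih =>
    rw [Ex_insert p ha, ih]
    have h1 : Ex p B (fun X => ((insert a X).card : ℝ)) = Ex p B (fun X => (X.card : ℝ) + 1) := by
      apply Ex_congr
      intro X hX
      rw [Finset.card_insert_of_notMem (fun h => ha (hX h))]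
      push_cast
      rfl
    rw [h1, Ex_add, ih, Ex_const, Finset.card_insert_of_notMem ha]
    push_cast
    ring

/-- PM-14: exchange. -/
theorem Ex_exchange {V : Type} (p : ℝ) (h0 : 0 ≤ p) (h1 : p < 1) (B : Finset V)
    (f : Finset V → V → ℝ) :
    Ex p B (fun X => ∑ w ∈ X, f (X.erase w) w) =
      p / (1 - p) * Ex p B (fun X => ∑ w ∈ B \ X, f X w) := by
  have hp : (1 - p) ≠ 0 := by
    intro h
    linarith
  induction B using Finset.induction_on generalizing f with
  | empty => simp [Ex_empty]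
  | insert a B ha ih =>
    rw [Ex_insert p ha, Ex_insert p ha, ih f]
    have e1 : Ex p B (fun X => ∑ w ∈ insert a X, f ((insert a X).erase w) w) =
        Ex p B (fun X => f X a) + Ex p B (fun X => ∑ w ∈ X, f (insert a (X.erase w)) w) := by
      rw [← Ex_add]
      apply Ex_congr
      intro X hX
      have haX : a ∉ X := fun h => ha (hX h)
      rw [Finset.sum_insert haX, Finset.erase_insert haX]
      congr 1
      apply Finset.sum_congr rfl
      intro w hw
      have hwa : a ≠ w := fun h => haX (h ▸ hw)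
      rw [Finset.erase_insert_of_ne hwa]
    have e2 : Ex p B (fun X => ∑ w ∈ insert a B \ X, f X w) =
        Ex p B (fun X => f X a) + Ex p B (fun X => ∑ w ∈ B \ X, f X w) := by
      rw [← Ex_add]
      apply Ex_congr
      intro X hX
      have haX : a ∉ X := fun h => ha (hX h)
      have h2 : a ∉ B \ X := fun h => ha (Finset.mem_sdiff.1 h).1
      rw [Finset.insert_sdiff_of_notMem _ haX, Finset.sum_insert h2]
    have e3 : Ex p B (fun X => ∑ w ∈ insert a B \ insert a X, f (insert a X) w) =
        Ex p B (fun X => ∑ w ∈ B \ X, f (insert a X) w) := by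
      apply Ex_congr
      intro X hX
      apply Finset.sum_congr _ (fun _ _ => rfl)
      ext x
      simp only [Finset.mem_sdiff, Finset.mem_insert, not_or]
      constructor
      · rintro ⟨h | h, h2, h3⟩
        · exact absurd h h2
        · exact ⟨h, h3⟩
      · rintro ⟨h, h3⟩
        exact ⟨Or.inr h, fun hxa => ha (hxa ▸ h), h3⟩
    rw [e1, e2, e3, ih (fun X w => f (insert a X) w)]
    field_simp
    ring

/-- One step of the expectation for two disjoint sets. -/
theorem EE_insert {V : Type} (p : ℝ) (h1 : p < 1) {a : V} {B : Finset V} (ha : a ∉ B)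
    (f : Finset V → Finset V → ℝ) :
    EE p (insert a B) f = (1 - 2 * p) * EE p B f + p * EE p B (fun Y Z => f (insert a Y) Z) +
      p * EE p B (fun Y Z => f Y (insert a Z)) := by
  have hp : (1 - p) ≠ 0 := by
    intro h
    linarith
  unfold EE
  rw [Ex_insert p ha]
  have e1 : Ex p B (fun Y => Ex (p / (1 - p)) (insert a B \ Y) fun Z => f Y Z) =
      (1 - p / (1 - p)) * Ex p B (fun Y => Ex (p / (1 - p)) (B \ Y) fun Z => f Y Z) +
      p / (1 - p) * Ex p B (fun Y => Ex (p / (1 - p)) (B \ Y) fun Z => f Y (insert a Z)) := by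
    rw [← Ex_const_mul, ← Ex_const_mul, ← Ex_add]
    apply Ex_congr
    intro Y hY
    have haY : a ∉ Y := fun h => ha (hY h)
    have h2 : a ∉ B \ Y := fun h => ha (Finset.mem_sdiff.1 h).1
    rw [Finset.insert_sdiff_of_notMem _ haY, Ex_insert _ h2]
  have e2 : Ex p B (fun Y => Ex (p / (1 - p)) (insert a B \ insert a Y)
        fun Z => f (insert a Y) Z) =
      Ex p B (fun Y => Ex (p / (1 - p)) (B \ Y) fun Z => f (insert a Y) Z) := by
    apply Ex_congr
    intro Y hY
    have h3 : insert a B \ insert a Y = B \ Y := by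
      ext x
      simp only [Finset.mem_sdiff, Finset.mem_insert, not_or]
      constructor
      · rintro ⟨h | h, h2, h3⟩
        · exact absurd h h2
        · exact ⟨h, h3⟩
      · rintro ⟨h, h3⟩
        exact ⟨Or.inr h, fun hxa => ha (hxa ▸ h), h3⟩
    rw [h3]
  rw [e1, e2]
  field_simp
  ring

theorem EE_empty {V : Type} (p : ℝ) (f : Finset V → Finset V → ℝ) : EE p ∅ f = f ∅ ∅ := by
  unfold EE
  rw [Ex_empty, Finset.sdiff_empty, Ex_empty]

/-- PM-15: facts on the expectation for two disjoint sets. -/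
theorem EE_union {V : Type} (p : ℝ) (h0 : 0 ≤ p) (h1 : p < 1) (B : Finset V)
    (g : Finset V → ℝ) : EE p B (fun Y Z => g (Y ∪ Z)) = Ex (2 * p) B g := by
  induction B using Finset.induction_on generalizing g with
  | empty => rw [EE_empty, Ex_empty]; simp
  | insert a B ha ih =>
    rw [EE_insert p h1 ha, Ex_insert _ ha]
    have e1 : (fun Y Z => g (insert a Y ∪ Z)) =
        fun Y Z : Finset V => (fun X => g (insert a X)) (Y ∪ Z) := by
      funext Y Z
      simp only [Finset.insert_union]
    have e2 : (fun Y Z => g (Y ∪ insert a Z)) =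
        fun Y Z : Finset V => (fun X => g (insert a X)) (Y ∪ Z) := by
      funext Y Z
      simp only [Finset.union_insert]
    rw [e1, e2, ih g, ih (fun X => g (insert a X))]
    ring

theorem EE_fst {V : Type} (p : ℝ) (B : Finset V) (g : Finset V → ℝ) :
    EE p B (fun Y _ => g Y) = Ex p B g := by
  unfold EE
  apply Ex_congr
  intro Y _
  exact Ex_const _ _ _

theorem EE_subset {V : Type} (p : ℝ) (h0 : 0 ≤ p) (h1 : p < 1) (B S T : Finset V)
    (hS : S ⊆ B) (hT : T ⊆ B) (hST : Disjoint S T) :
    EE p B (fun Y Z => if S ⊆ Y ∧ T ⊆ Z then 1 else 0) = p ^ (S.card + T.card) := by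
  have hp : (1 - p) ≠ 0 := by
    intro h
    linarith
  unfold EE
  have e1 : Ex p B (fun Y => Ex (p / (1 - p)) (B \ Y)
        fun Z => if S ⊆ Y ∧ T ⊆ Z then (1 : ℝ) else 0) =
      Ex p B (fun Y => (p / (1 - p)) ^ T.card * (if Y ∩ (S ∪ T) = S then (1 : ℝ) else 0)) := by
    apply Ex_congr
    intro Y hY
    by_cases hcase : Y ∩ (S ∪ T) = S
    · rw [if_pos hcase, mul_one]
      have hSY : S ⊆ Y := by
        rw [← hcase]
        exact Finset.inter_subset_left
      have hTY : T ⊆ B \ Y := by
        intro x hx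
        refine Finset.mem_sdiff.2 ⟨hT hx, fun hxY => ?_⟩
        have h2 : x ∈ S := by
          rw [← hcase]
          exact Finset.mem_inter.2 ⟨hxY, Finset.mem_union_right _ hx⟩
        exact Finset.disjoint_left.1 hST h2 hx
      rw [← Ex_subset (p / (1 - p)) (B \ Y) T hTY]
      apply Ex_congr
      intro Z _
      simp only [hSY, true_and]
    · rw [if_neg hcase, mul_zero]
      refine (Ex_congr _ _ (g := fun _ => 0) ?_).trans (Ex_const _ _ _)
      intro Z hZ
      rw [if_neg]
      rintro ⟨hSY, hTZ⟩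
      apply hcase
      ext x
      simp only [Finset.mem_inter, Finset.mem_union]
      constructor
      · rintro ⟨hxY, h | h⟩
        · exact h
        · exact absurd hxY (Finset.mem_sdiff.1 (hZ (hTZ h))).2
      · intro h
        exact ⟨hSY h, Or.inl h⟩
  rw [e1, Ex_const_mul, Ex_inter_eq p B S (S ∪ T) Finset.subset_union_left
    (Finset.union_subset hS hT)]
  have h2 : (S ∪ T) \ S = T := by
    rw [Finset.union_sdiff_left]
    exact Finset.sdiff_eq_self_of_disjoint hST.symm
  rw [h2, div_pow, pow_add]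
  have h3 : (1 - p) ^ T.card ≠ 0 := pow_ne_zero _ hp
  field_simp

theorem EE_add {V : Type} (p : ℝ) (B : Finset V) (f g : Finset V → Finset V → ℝ) :
    EE p B (fun Y Z => f Y Z + g Y Z) = EE p B f + EE p B g := by
  unfold EE
  rw [← Ex_add]
  apply Ex_congr
  intro Y _
  exact Ex_add _ _ _ _

theorem EE_const_mul {V : Type} (p c : ℝ) (B : Finset V) (f : Finset V → Finset V → ℝ) :
    EE p B (fun Y Z => c * f Y Z) = c * EE p B f := by
  unfold EE
  rw [← Ex_const_mul]
  apply Ex_congr
  intro Y _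
  exact Ex_const_mul _ _ _ _

theorem EE_sum {V ι : Type} (p : ℝ) (B : Finset V) (I : Finset ι)
    (f : ι → Finset V → Finset V → ℝ) :
    EE p B (fun Y Z => ∑ i ∈ I, f i Y Z) = ∑ i ∈ I, EE p B (f i) := by
  unfold EE
  rw [← Ex_sum]
  apply Ex_congr
  intro Y _
  exact Ex_sum _ _ _ _

theorem EE_mono {V : Type} (p : ℝ) (h0 : 0 ≤ p) (h1 : p ≤ 1 / 2) (B : Finset V)
    (f g : Finset V → Finset V → ℝ) (h : ∀ Y ⊆ B, ∀ Z ⊆ B \ Y, f Y Z ≤ g Y Z) :
    EE p B f ≤ EE p B g := by
  have hp : 0 < 1 - p := by linarith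
  have hr0 : 0 ≤ p / (1 - p) := div_nonneg h0 hp.le
  have hr1 : p / (1 - p) ≤ 1 := by
    rw [div_le_one hp]
    linarith
  unfold EE
  apply Ex_mono p h0 (by linarith)
  intro Y hY
  exact Ex_mono _ hr0 hr1 _ _ _ (h Y hY)

theorem exists_ge_EE {V : Type} (p : ℝ) (h0 : 0 ≤ p) (h1 : p ≤ 1 / 2) (B : Finset V)
    (f : Finset V → Finset V → ℝ) : ∃ Y ⊆ B, ∃ Z ⊆ B \ Y, EE p B f ≤ f Y Z := by
  have hp : 0 < 1 - p := by linarith
  have hr0 : 0 ≤ p / (1 - p) := div_nonneg h0 hp.le
  have hr1 : p / (1 - p) ≤ 1 := by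
    rw [div_le_one hp]
    linarith
  obtain ⟨Y, hY, h2⟩ := exists_ge_Ex p h0 (by linarith) B
    (fun Y => Ex (p / (1 - p)) (B \ Y) fun Z => f Y Z)
  obtain ⟨Z, hZ, h3⟩ := exists_ge_Ex (p / (1 - p)) hr0 hr1 (B \ Y) (fun Z => f Y Z)
  exact ⟨Y, hY, Z, hZ, h2.trans h3⟩

end Pool.Agent.Helper35.PM
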